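import Pool.Agent.Y258.SD.CStmts

/-!
# Project Y258: adding a coordinate to the net (`St_C19`)
-/

set_option autoImplicit false

namespace Pool.Agent.Y141.SDC19

open Finset Pool.Agent.H470D4 Pool.Agent.Y258

variable {q M B n : ℕ} [Fact q.Prime]

theorem newF_castSucc (c : Flg q M B n) (ω : Pth q B) (a : Fin (n + 2)) (j : ℕ) :
    newF c ω (Fin.castSucc a) j = c a j := by
  unfold newF
  exact Fin.lastCases_castSucc (motive := fun _ => Vec q M B →ₗ[ZMod q] ZMod q) a

theorem newF_last (c : Flg q M B n) (ω : Pth q B) (j : ℕ) :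
    newF c ω (Fin.last (n + 2)) j = row M ω j := by
  unfold newF
  exact Fin.lastCases_last (motive := fun _ => Vec q M B →ₗ[ZMod q] ZMod q)

theorem forall_newF {P : Fin (n + 1 + 2) → Prop} :
    (∀ a, P a) ↔ (∀ a : Fin (n + 2), P (Fin.castSucc a)) ∧ P (Fin.last (n + 2)) := by
  constructor
  · intro h
    exact ⟨fun a => h _, h _⟩
  · rintro ⟨h1, h2⟩ a
    exact Fin.lastCases (motive := fun a : Fin (n + 2 + 1) => P a) h2 h1 a

theorem AA_newF (c : Flg q M B n) (ω ω' : Pth q B) (W : Fin (n + 1 + 2) → ℕ) :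
    AA (newF c ω) ω' W 0 = AA c ω (fun a => W (Fin.castSucc a)) (W (Fin.last (n + 2))) := by
  ext ν
  rw [mem_AA, mem_AA, forall_newF]
  constructor
  · rintro ⟨⟨h1, h2⟩, _⟩
    refine ⟨fun a j hj => ?_, fun j hj => ?_⟩
    · rw [← newF_castSucc c ω a j]
      exact h1 a j hj
    · rw [← newF_last c ω j]
      exact h2 j hj
  · rintro ⟨h1, h2⟩
    refine ⟨⟨fun a j hj => ?_, fun j hj => ?_⟩, fun j hj => absurd hj (by omega)⟩
    · rw [newF_castSucc]
      exact h1 a j hj
    · rw [newF_last]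
      exact h2 j hj

theorem isFlags_newF (c : Flg q M B n) (hc : IsFlags c) (ω : Pth q B) (hE : ∀ r ≤ M * B, Exc c ω r) :
    IsFlags (newF c ω) := by
  refine ⟨?_, ?_⟩
  · intro l ν
    have h := newF_castSucc c ω 0 (l : ℕ)
    have h0 : (Fin.castSucc (0 : Fin (n + 2)) : Fin (n + 2 + 1)) = (0 : Fin (n + 1 + 2)) := rfl
    rw [h0] at h
    rw [h]
    exact hc.zero l ν
  · intro ω' W
    rw [AA_newF]
    have hsum : ∑ a, W a = ∑ a : Fin (n + 2), W (Fin.castSucc a) + W (Fin.last (n + 2)) :=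
      Fin.sum_univ_castSucc (n := n + 2) W
    rcases Nat.lt_or_ge (M * B) (W (Fin.last (n + 2))) with h | h
    · have h1 := hE (M * B) le_rfl (fun a => W (Fin.castSucc a))
      have h2 : AA c ω (fun a => W (Fin.castSucc a)) (W (Fin.last (n + 2))) ≤
          AA c ω (fun a => W (Fin.castSucc a)) (M * B) := by
        intro ν hν
        rw [mem_AA] at hν ⊢
        exact ⟨hν.1, fun j hj => hν.2 j (by omega)⟩
      have h3 := Submodule.finrank_mono h2
      rw [h1] at h3
      unfold dm at h3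
      omega
    · have h1 := hE (W (Fin.last (n + 2))) h (fun a => W (Fin.castSucc a))
      rw [h1, dm, hsum]

theorem corner_est (c : Flg q M B n) (ω : Pth q B)
    (X : Fin (n + 2) → ℕ → ZMod q) (Y : ℕ → ZMod q) (E E1 : ℝ) (hGB : GB c E)
    (hE : |∑ r ∈ range (M * B), XX c (cD M B X Y) ω r| ≤ E1) :
    |∑ ν : Vec q M B, ii ((∀ a, tv (fun j => c a j ν) (M * B) < tv (X a) (M * B)) ∧
        tv (fun r => row M ω r ν) (M * B) < tv Y (M * B)) -
      (q:ℝ) ^ (M * B) * ((∏ a, tv (X a) (M * B)) * tv Y (M * B))| ≤ E + E1 := by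
  have h0 := hGB X
  obtain ⟨hy1, hy2⟩ := tv_bounds Y (M * B)
  set Z : ℝ := ∑ ν : Vec q M B, ii (∀ a, tv (fun j => c a j ν) (M * B) < tv (X a) (M * B)) with hZ
  have h1 : ∑ ν : Vec q M B, ii ((∀ a, tv (fun j => c a j ν) (M * B) < tv (X a) (M * B)) ∧
        tv (fun r => row M ω r ν) (M * B) < tv Y (M * B)) =
      tv Y (M * B) * Z + ∑ r ∈ range (M * B), XX c (cD M B X Y) ω r := by
    have h2 : ∀ ν : Vec q M B, ii ((∀ a, tv (fun j => c a j ν) (M * B) <
        tv (X a) (M * B)) ∧ tv (fun r => row M ω r ν) (M * B) < tv Y (M * B)) =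
        tv Y (M * B) * ii (∀ a, tv (fun j => c a j ν) (M * B) < tv (X a) (M * B)) +
        ∑ r ∈ range (M * B), (∑ l ∈ Lbox M B n, ii (Lev c (cD M B X Y) ν l)) *
          (ii (∀ j < r, row M ω j ν = (cD M B X Y).y j) *
            (cD M B X Y).psi r (row M ω r ν)) := by
      intro ν
      have h3 := lev_ind c (M * B) X Y (fun _ _ => 0) (fun _ => 0) ν
      simp only [add_zero] at h3
      have h4 := last_ind (M * B) (fun r => row M ω r ν) Y (fun _ => 0)
      simp only [add_zero] at h4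
      rw [ii_and, h4, mul_add, ← mul_sum]
      have h5 : ∑ l ∈ Lbox M B n, ii (Lev c (cD M B X Y) ν l) =
          ii (∀ a, tv (fun j => c a j ν) (M * B) < tv (X a) (M * B)) := h3.symm
      rw [h5, mul_comm (ii _) (tv Y (M * B))]
      rfl
    rw [sum_congr rfl (fun ν _ => h2 ν), sum_add_distrib, ← mul_sum, sum_comm]
    congr 1
    refine sum_congr rfl fun r _ => ?_
    rw [XX_eqN]
  rw [h1]
  have h3 : tv Y (M * B) * Z + ∑ r ∈ range (M * B), XX c (cD M B X Y) ω r -
      (q:ℝ) ^ (M * B) * ((∏ a, tv (X a) (M * B)) * tv Y (M * B)) =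
      tv Y (M * B) * (Z - (q:ℝ) ^ (M * B) * ∏ a, tv (X a) (M * B)) +
        ∑ r ∈ range (M * B), XX c (cD M B X Y) ω r := by ring
  rw [h3]
  refine le_trans (abs_add_le _ _) ?_
  rw [abs_mul, abs_of_nonneg hy1]
  have h4 : tv Y (M * B) * |Z - (q:ℝ) ^ (M * B) * ∏ a, tv (X a) (M * B)| ≤ 1 * E :=
    mul_le_mul hy2.le h0 (abs_nonneg _) zero_le_one
  linarith

theorem C19 : St_C19 := by
  intro n q _ M B c hc ω hEx
  refine ⟨isFlags_newF c hc ω hEx, ?_⟩
  intro E E1 hGB hE1 hX X
  classical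
  set X' : Fin (n + 2) → ℕ → ZMod q := fun a j => if j < M * B then X (Fin.castSucc a) j else 0 with hX'
  set Y' : ℕ → ZMod q := fun j => if j < M * B then X (Fin.last (n + 2)) j else 0 with hY'
  have h1 := corner_est c ω X' Y' E E1 hGB (hX X' Y' (fun a j hj => by simp [hX', not_lt.mpr hj])
    (fun j hj => by simp [hY', not_lt.mpr hj]))
  have hXt : ∀ a, tv (X' a) (M * B) = tv (X (Fin.castSucc a)) (M * B) := fun a =>
    tv_congr _ _ _ (fun j hj => by simp [hX', hj])
  have hYt : tv Y' (M * B) = tv (X (Fin.last (n + 2))) (M * B) :=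
    tv_congr _ _ _ (fun j hj => by simp [hY', hj])
  have h2 : ∀ ν : Vec q M B, ii (∀ a, tv (fun j => newF c ω a j ν) (M * B) < tv (X a) (M * B)) =
      ii ((∀ a, tv (fun j => c a j ν) (M * B) < tv (X' a) (M * B)) ∧
        tv (fun r => row M ω r ν) (M * B) < tv Y' (M * B)) := by
    intro ν
    apply ii_congr
    rw [forall_newF]
    constructor
    · rintro ⟨h3, h4⟩
      refine ⟨fun a => ?_, ?_⟩
      · have h5 := h3 a
        simp only [newF_castSucc] at h5
        rw [hXt]
        exact h5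
      · simp only [newF_last] at h4
        rw [hYt]
        exact h4
    · rintro ⟨h3, h4⟩
      refine ⟨fun a => ?_, ?_⟩
      · have h5 := h3 a
        rw [hXt] at h5
        simp only [newF_castSucc]
        exact h5
      · rw [hYt] at h4
        simp only [newF_last]
        exact h4
  rw [sum_congr rfl (fun ν _ => h2 ν)]
  have h3 : ∏ a, tv (X a) (M * B) = (∏ a, tv (X' a) (M * B)) * tv Y' (M * B) := by
    have h4 : ∏ a, tv (X a) (M * B) = (∏ a : Fin (n + 2), tv (X (Fin.castSucc a)) (M * B)) *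
        tv (X (Fin.last (n + 2))) (M * B) := Fin.prod_univ_castSucc (n := n + 2) (fun a => tv (X a) (M * B))
    rw [h4, hYt]
    congr 1
    exact prod_congr rfl fun a _ => (hXt a).symm
  rw [h3]
  exact h1

end Pool.Agent.Y141.SDC19
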