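import Pool.Agent.Y19.QT.Defs
import Pool.Agent.Y705.QT0

set_option autoImplicit false

/-!
Project QT, tasks T12c1 and T12c2: second moments of the tail and of the mollifier.
First part: Euler products and sums over pairs whose product is a square.
-/

namespace Pool.Agent.Y141.QT12c

open Complex MeasureTheory Filter Topology
open Pool.Agent.H306R2.RZ (js Gk)
open Pool.Agent.Y19.QT
open scoped ENNReal ComplexConjugate

noncomputable section

/-- number of divisors -/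
def dd (n : ℕ) : ℝ := (n.divisors.card : ℝ)

lemma dd_nonneg (n : ℕ) : 0 ≤ dd n := Nat.cast_nonneg _

lemma dd_mul {m n : ℕ} (h : m.Coprime n) : dd (m * n) = dd m * dd n := by
  unfold dd
  rw [h.card_divisors_mul, Nat.cast_mul]

lemma dd_prime_pow {p : ℕ} (hp : p.Prime) (k : ℕ) : dd (p ^ k) = k + 1 := by
  unfold dd
  rw [Nat.divisors_prime_pow hp, Finset.card_map, Finset.card_range]
  push_cast
  rfl

lemma dd_mono {m n : ℕ} (h : m ∣ n) (hn : n ≠ 0) : dd m ≤ dd n := by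
  unfold dd
  exact_mod_cast Finset.card_le_card (Nat.divisors_subset_of_dvd hn h)

lemma dd_le (n : ℕ) : dd n ≤ n := by
  unfold dd
  exact_mod_cast Nat.card_divisors_le_self n

lemma one_le_dd {n : ℕ} (hn : n ≠ 0) : 1 ≤ dd n := by
  unfold dd
  exact_mod_cast Finset.card_pos.2 ⟨1, Nat.one_mem_divisors.2 hn⟩

/-- power series with first coefficient `1` are bounded by powers of `(1 - x)⁻¹` -/
lemma pw (a : ℕ → ℝ) (h0 : a 0 = 1) (ha : ∀ k, 0 ≤ a k)
    (hs : Summable (fun k : ℕ => a k * (1 / 2) ^ k)) :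
    ∃ A : ℕ, ∀ x : ℝ, 0 ≤ x → x ≤ 1 / 2 → Summable (fun k : ℕ => a k * x ^ k) ∧
      ∑' k : ℕ, a k * x ^ k ≤ ((1 - x)⁻¹) ^ A := by
  have hs1 : Summable (fun k : ℕ => a (k + 1) * (1 / 2 : ℝ) ^ k) := by
    have h1 := ((summable_nat_add_iff 1).2 hs).mul_left 2
    refine h1.congr fun k => ?_
    rw [pow_succ]
    ring
  refine ⟨⌈∑' k : ℕ, a (k + 1) * (1 / 2 : ℝ) ^ k⌉₊, fun x hx0 hx => ?_⟩
  set A := ⌈∑' k : ℕ, a (k + 1) * (1 / 2 : ℝ) ^ k⌉₊ with hA
  have hle : ∀ k : ℕ, a (k + 1) * x ^ k ≤ a (k + 1) * (1 / 2) ^ k := fun k =>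
    mul_le_mul_of_nonneg_left (pow_le_pow_left₀ hx0 hx k) (ha _)
  have hs2 : Summable (fun k : ℕ => a (k + 1) * x ^ k) :=
    Summable.of_nonneg_of_le (fun k => mul_nonneg (ha _) (pow_nonneg hx0 k)) hle hs1
  have hs3 : Summable (fun k : ℕ => a k * x ^ k) := by
    rw [← summable_nat_add_iff 1]
    refine (hs2.mul_left x).congr fun k => ?_
    rw [pow_succ]
    ring
  refine ⟨hs3, ?_⟩
  rw [hs3.tsum_eq_zero_add, h0]
  have h1 : ∑' k : ℕ, a (k + 1) * x ^ (k + 1) = x * ∑' k : ℕ, a (k + 1) * x ^ k := by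
    rw [← tsum_mul_left]
    refine tsum_congr fun k => ?_
    rw [pow_succ]
    ring
  rw [h1]
  have h2 : ∑' k : ℕ, a (k + 1) * x ^ k ≤ A :=
    (hs2.tsum_le_tsum hle hs1).trans (Nat.le_ceil _)
  have h3 : 1 + (A : ℝ) * x ≤ (1 + x) ^ A := one_add_mul_le_pow (by linarith) A
  have h4 : 1 + x ≤ (1 - x)⁻¹ := by
    rw [le_inv_comm₀ (by linarith) (by linarith), ← one_div, le_div_iff₀ (by linarith)]
    nlinarith
  calc 1 * x ^ 0 + x * ∑' k : ℕ, a (k + 1) * x ^ k ≤ 1 + A * x := by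
        rw [pow_zero, mul_one]
        nlinarith
    _ ≤ (1 + x) ^ A := h3
    _ ≤ ((1 - x)⁻¹) ^ A := pow_le_pow_left₀ (by linarith) h4 A

/-- the Dirichlet series of a power of `d(n²)` -/
theorem euler (j : ℕ) (hj : j ≠ 0) : ∃ A : ℕ, ∀ s : ℝ, 1 < s →
    Summable (fun n : ℕ => dd (n ^ 2) ^ j * (n : ℝ) ^ (-s)) ∧
      ∑' n : ℕ, dd (n ^ 2) ^ j * (n : ℝ) ^ (-s) ≤ (1 + 1 / (s - 1)) ^ A := by
  obtain ⟨A, hA⟩ := pw (fun k : ℕ => ((2 * k + 1 : ℕ) : ℝ) ^ j) (by simp)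
    (fun k => by positivity) (by
      have h1 : Summable (fun k : ℕ => (k : ℝ) ^ j * (1 / 2 : ℝ) ^ k) :=
        summable_pow_mul_geometric_of_norm_lt_one j (by norm_num)
      have h2 := ((summable_nat_add_iff 1).2 h1).mul_left (2 ^ (j + 1))
      refine Summable.of_nonneg_of_le (fun k => by positivity) (fun k => ?_) h2
      have h3 : ((2 * k + 1 : ℕ) : ℝ) ^ j ≤ 2 ^ j * ((k + 1 : ℕ) : ℝ) ^ j := by
        rw [← mul_pow]
        refine pow_le_pow_left₀ (by positivity) ?_ j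
        push_cast
        linarith
      calc ((2 * k + 1 : ℕ) : ℝ) ^ j * (1 / 2) ^ k ≤
          (2 ^ j * ((k + 1 : ℕ) : ℝ) ^ j) * (1 / 2) ^ k := by gcongr
        _ = 2 ^ (j + 1) * (((k + 1 : ℕ) : ℝ) ^ j * (1 / 2) ^ (k + 1)) := by
          rw [pow_succ, pow_succ]
          ring)
  refine ⟨A, fun s hs => ?_⟩
  refine Pool.Agent.Y705.QT0.T0 (fun n => dd (n ^ 2) ^ j * (n : ℝ) ^ (-s)) A s hs
    (fun n => mul_nonneg (pow_nonneg (dd_nonneg _) _) (by positivity)) ?_ ?_ ?_ ?_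
  · simp [dd, hj]
  · simp [dd]
  · intro m n hmn
    rw [mul_pow, dd_mul (hmn.pow 2 2), Nat.cast_mul,
      Real.mul_rpow (Nat.cast_nonneg _) (Nat.cast_nonneg _), mul_pow]
    ring
  · intro p hp
    have hp2 : (2 : ℝ) ≤ p := by exact_mod_cast hp.two_le
    have hx : (p : ℝ) ^ (-s) ≤ 1 / 2 := by
      calc (p : ℝ) ^ (-s) ≤ (p : ℝ) ^ (-1 : ℝ) :=
            Real.rpow_le_rpow_of_exponent_le (by linarith) (by linarith)
        _ = (p : ℝ)⁻¹ := Real.rpow_neg_one _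
        _ ≤ 1 / 2 := by
          rw [one_div]
          exact inv_anti₀ (by norm_num) hp2
    have h1 := hA ((p : ℝ) ^ (-s)) (by positivity) hx
    have h2 : ∀ k : ℕ, dd ((p ^ k) ^ 2) ^ j * ((p ^ k : ℕ) : ℝ) ^ (-s) =
        ((2 * k + 1 : ℕ) : ℝ) ^ j * ((p : ℝ) ^ (-s)) ^ k := by
      intro k
      rw [← pow_mul, dd_prime_pow hp]
      congr 1
      · push_cast
        ring
      · rw [Nat.cast_pow, ← Real.rpow_natCast, ← Real.rpow_mul (by linarith), mul_comm,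
          Real.rpow_mul (by linarith), Real.rpow_natCast]
    refine ⟨h1.1.congr fun k => (h2 k).symm, ?_⟩
    rw [tsum_congr h2]
    exact h1.2

/-! ### pairs whose product is a square -/

/-- sums over pairs of positive integers whose product is a square -/
lemma pairs_le (W : ℕ × ℕ → ℝ≥0∞) (hW : ∀ m : ℕ × ℕ, m.1 * m.2 = 0 → W m = 0) :
    ∑' m : ℕ × ℕ, (if IsSquare (m.1 * m.2) then W m else 0) ≤
      ∑' n : ℕ, ∑ x ∈ (n ^ 2).divisorsAntidiagonal, W x := by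
  have h1 : ∀ m : ℕ × ℕ, (if IsSquare (m.1 * m.2) then W m else 0) ≤
      ∑' n : ℕ, (if m.1 * m.2 = n ^ 2 then W m else 0) := by
    intro m
    split_ifs with h
    · obtain ⟨r, hr⟩ := h
      refine le_trans ?_ (ENNReal.le_tsum r)
      rw [if_pos (by rw [hr, pow_two])]
    · exact zero_le
  refine (ENNReal.tsum_le_tsum h1).trans ?_
  rw [ENNReal.tsum_comm]
  refine ENNReal.tsum_le_tsum fun n => ?_
  have h2 : ∑' m : ℕ × ℕ, (if m.1 * m.2 = n ^ 2 then W m else 0) =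
      ∑ m ∈ (n ^ 2).divisorsAntidiagonal, (if m.1 * m.2 = n ^ 2 then W m else 0) := by
    refine tsum_eq_sum fun m hm => ?_
    split_ifs with h
    · apply hW
      by_contra h0
      exact hm (Nat.mem_divisorsAntidiagonal.2 ⟨h, by rw [← h]; exact h0⟩)
    · rfl
  rw [h2]
  refine Finset.sum_le_sum fun m _ => ?_
  split_ifs
  · exact le_rfl
  · exact zero_le

lemma tsum_le_of_ofReal {ι : Type*} (F : ι → ℝ) (B : ℝ) (hF : ∀ i, 0 ≤ F i) (hB : 0 ≤ B)
    (h : ∑' i, ENNReal.ofReal (F i) ≤ ENNReal.ofReal B) : ∑' i, F i ≤ B := by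
  have h1 : Summable F := by
    have h2 := ENNReal.summable_toReal (ne_top_of_le_ne_top ENNReal.ofReal_ne_top h)
    refine h2.congr fun i => ENNReal.toReal_ofReal (hF i)
  rw [← ENNReal.ofReal_tsum_of_nonneg hF h1] at h
  exact (ENNReal.ofReal_le_ofReal_iff hB).1 h

/-- the main sum -/
theorem pairs_sum (j : ℕ) : ∃ A : ℕ, ∀ (s c : ℝ) (y : ℕ → ℝ), 1 < s → 0 ≤ c → (∀ n, 0 ≤ y n) →
    y 0 = 0 →
    (∀ m n : ℕ, 0 < m → 0 < n →
      y m * y n ≤ c * (dd m ^ j * dd n ^ j * ((m : ℝ) * n) ^ (-(s / 2)))) →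
    ∑' m : ℕ × ℕ, (if IsSquare (m.1 * m.2) then y m.1 * y m.2 else 0) ≤
      c * (1 + 1 / (s - 1)) ^ A := by
  obtain ⟨A, hA⟩ := euler (2 * j + 1) (by omega)
  refine ⟨A, fun s c y hs hc hy hy0 h => ?_⟩
  obtain ⟨hsum, hle⟩ := hA s hs
  refine tsum_le_of_ofReal _ _ (fun m => ?_) (by
    have : 0 < s - 1 := by linarith
    positivity) ?_
  · split_ifs
    · exact mul_nonneg (hy _) (hy _)
    · exact le_rfl
  have h1 : ∀ m : ℕ × ℕ, ENNReal.ofReal (if IsSquare (m.1 * m.2) then y m.1 * y m.2 else 0) =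
      if IsSquare (m.1 * m.2) then ENNReal.ofReal (y m.1 * y m.2) else 0 := by
    intro m
    split_ifs <;> simp
  rw [tsum_congr h1]
  refine (pairs_le _ fun m hm => ?_).trans ?_
  · rcases Nat.mul_eq_zero.1 hm with h2 | h2 <;> rw [h2, hy0] <;> simp
  have h2 : ∀ n : ℕ, ∑ x ∈ (n ^ 2).divisorsAntidiagonal, ENNReal.ofReal (y x.1 * y x.2) ≤
      ENNReal.ofReal (c * (dd (n ^ 2) ^ (2 * j + 1) * (n : ℝ) ^ (-s))) := by
    intro n
    rw [← ENNReal.ofReal_sum_of_nonneg (fun x _ => mul_nonneg (hy _) (hy _))]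
    refine ENNReal.ofReal_le_ofReal ?_
    have h3 : ∀ x ∈ (n ^ 2).divisorsAntidiagonal, y x.1 * y x.2 ≤
        c * (dd (n ^ 2) ^ (2 * j) * (n : ℝ) ^ (-s)) := by
      intro x hx
      obtain ⟨hx1, hx2⟩ := Nat.mem_divisorsAntidiagonal.1 hx
      have ha : 0 < x.1 := Nat.pos_of_ne_zero fun h0 => hx2 (by rw [← hx1, h0, zero_mul])
      have hb : 0 < x.2 := Nat.pos_of_ne_zero fun h0 => hx2 (by rw [← hx1, h0, mul_zero])
      refine (h x.1 x.2 ha hb).trans ?_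
      refine mul_le_mul_of_nonneg_left ?_ hc
      have e1 : ((x.1 : ℝ) * x.2) ^ (-(s / 2)) = (n : ℝ) ^ (-s) := by
        have : ((x.1 : ℝ) * x.2) = (n : ℝ) ^ (2 : ℝ) := by
          rw [← Nat.cast_mul, hx1]
          norm_cast
        rw [this, ← Real.rpow_mul (Nat.cast_nonneg _)]
        congr 1
        ring
      rw [e1, two_mul, pow_add]
      have i1 : dd x.1 ≤ dd (n ^ 2) := dd_mono ⟨x.2, hx1.symm⟩ hx2
      have i2 : dd x.2 ≤ dd (n ^ 2) := dd_mono ⟨x.1, by rw [← hx1, mul_comm]⟩ hx2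
      have := dd_nonneg x.1
      have := dd_nonneg x.2
      have := pow_nonneg (dd_nonneg (n ^ 2)) j
      gcongr
    refine (Finset.sum_le_card_nsmul _ _ _ h3).trans ?_
    rw [nsmul_eq_mul]
    have h4 : ((n ^ 2).divisorsAntidiagonal.card : ℝ) = dd (n ^ 2) := by
      unfold dd
      rw [← Nat.map_div_right_divisors, Finset.card_map]
    rw [h4, pow_succ]
    ring_nf
    exact le_rfl
  refine (ENNReal.tsum_le_tsum h2).trans ?_
  rw [← ENNReal.ofReal_tsum_of_nonneg (fun n => mul_nonneg hc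
    (mul_nonneg (pow_nonneg (dd_nonneg _) _) (by positivity))) (hsum.mul_left c), tsum_mul_left]
  exact ENNReal.ofReal_le_ofReal (mul_le_mul_of_nonneg_left hle hc)

/-! ### `μ_E` and `λ` -/

/-- T12a -/
def S12a : Prop := ∃ C : ℝ, 0 < C ∧ ∀ (X : ℝ) (x : ℕ → ℂ), 1 ≤ X → (∀ n, x n ≠ 0 → Odd n) →
    Summable (fun n : ℕ => ‖x n‖ * (n : ℝ) ^ 20) →
    ∑' k : ℤ, ENNReal.ofReal (Real.exp (-(Real.pi * (k / X) ^ 2))) * ‖∑' n : ℕ, x n * js k n‖ₑ ^ 2 ≤
      ENNReal.ofReal (X * (∑' m : ℕ × ℕ, if IsSquare (m.1 * m.2) then ‖x m.1‖ * ‖x m.2‖ else 0) +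
        C / X ^ 19 * (∑' n : ℕ, ‖x n‖ * (n : ℝ) ^ 20) ^ 2)

section hecke

variable {Q : ℕ} {lam : ℕ → ℝ} (H : Hecke Q lam)

include H

lemma two_dvd : 2 ∣ Q := H.small 2 Nat.prime_two (by norm_num)

lemma odd_of_lam {n : ℕ} (h : lam n ≠ 0) : Odd n := by
  by_contra hn
  apply h
  rcases Nat.eq_zero_or_pos n with rfl | hpos
  · exact H.zero
  obtain ⟨k, m, hm, rfl⟩ := Nat.exists_eq_two_pow_mul_odd hpos.ne'
  rcases Nat.eq_zero_or_pos k with rfl | hk
  · exact (hn (by simpa using hm)).elim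
  obtain ⟨k, rfl⟩ := Nat.exists_eq_succ_of_ne_zero hk.ne'
  rw [H.mul _ _ (Nat.Coprime.pow_left _ (Nat.coprime_two_left.2 hm)),
    H.bad 2 k Nat.prime_two (two_dvd H), zero_mul]

lemma odd_of_muE {n : ℕ} (h : muE Q lam n ≠ 0) : Odd n := by
  by_contra hn
  apply h
  unfold muE
  split_ifs with h0
  · rfl
  rw [Nat.not_odd_iff_even] at hn
  have h2 : 2 ∈ n.factorization.support := by
    rw [Nat.support_factorization, Nat.mem_primeFactors]
    exact ⟨Nat.prime_two, even_iff_two_dvd.1 hn, h0⟩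
  rw [Finsupp.prod]
  refine Finset.prod_eq_zero h2 ?_
  have hl : lam 2 = 0 := by
    have := H.bad 2 0 Nat.prime_two (two_dvd H)
    simpa using this
  have h3 : ¬ (n.factorization 2 = 2 ∧ ¬ 2 ∣ Q) := fun h => h.2 (two_dvd H)
  rw [if_neg h3, hl, neg_zero, ite_self]

lemma odd_of_cY {Y n : ℕ} (h : cY Q lam Y n ≠ 0) : Odd n := by
  unfold cY at h
  obtain ⟨x, hx, hx2⟩ := Finset.exists_ne_zero_of_sum_ne_zero h
  split_ifs at hx2 with h1
  · obtain ⟨ha, -⟩ := Nat.mem_divisorsAntidiagonal.1 hx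
    rw [← ha]
    exact (odd_of_muE H (left_ne_zero_of_mul hx2)).mul (odd_of_lam H (right_ne_zero_of_mul hx2))
  · exact (hx2 rfl).elim

omit H in
lemma abs_cY_le (hl : ∀ n : ℕ, |lam n| ≤ dd n) (hm : ∀ n : ℕ, |muE Q lam n| ≤ dd n) (Y n : ℕ) :
    |cY Q lam Y n| ≤ dd n ^ 3 := by
  unfold cY
  refine (Finset.abs_sum_le_sum_abs _ _).trans ?_
  have h1 : ∀ x ∈ n.divisorsAntidiagonal, |if x.1 ≤ Y then muE Q lam x.1 * lam x.2 else 0| ≤
      dd n ^ 2 := by
    intro x hx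
    obtain ⟨hx1, hx2⟩ := Nat.mem_divisorsAntidiagonal.1 hx
    have i1 : dd x.1 ≤ dd n := dd_mono ⟨x.2, hx1.symm⟩ hx2
    have i2 : dd x.2 ≤ dd n := dd_mono ⟨x.1, by rw [← hx1, mul_comm]⟩ hx2
    split_ifs
    · rw [abs_mul, pow_two]
      exact mul_le_mul ((hm _).trans i1) ((hl _).trans i2) (abs_nonneg _) (dd_nonneg _)
    · rw [abs_zero]
      exact pow_nonneg (dd_nonneg _) _
  refine (Finset.sum_le_card_nsmul _ _ _ h1).trans ?_
  rw [nsmul_eq_mul]
  have h4 : (n.divisorsAntidiagonal.card : ℝ) = dd n := by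
    unfold dd
    rw [← Nat.map_div_right_divisors, Finset.card_map]
  rw [h4]
  exact le_of_eq (by ring)

end hecke

/-- from the sum over all `k` to the sum over `sqf X` -/
lemma sum_sqf (S : ℤ → ℂ) (B : ℝ) (X : ℕ) (hX : 0 < X) (hB : 0 ≤ B)
    (h : ∑' k : ℤ, ENNReal.ofReal (Real.exp (-(Real.pi * (k / (X : ℝ)) ^ 2))) * ‖S k‖ₑ ^ 2 ≤
      ENNReal.ofReal B) : ∑ d ∈ sqf X, ‖S d‖ ^ 2 ≤ Real.exp Real.pi * B := by
  have hX' : (0 : ℝ) < X := by exact_mod_cast hX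
  refine (ENNReal.ofReal_le_ofReal_iff (by positivity)).1 ?_
  rw [ENNReal.ofReal_sum_of_nonneg (fun d _ => by positivity), ENNReal.ofReal_mul (by positivity)]
  have h1 : ∀ d ∈ sqf X, ENNReal.ofReal (‖S d‖ ^ 2) ≤ ENNReal.ofReal (Real.exp Real.pi) *
      (ENNReal.ofReal (Real.exp (-(Real.pi * (d / (X : ℝ)) ^ 2))) * ‖S d‖ₑ ^ 2) := by
    intro d hd
    have hd1 := (mem_sqf.1 hd).1
    have h2 : ((d : ℝ) / (X : ℝ)) ^ 2 ≤ 1 := by
      rw [sq_le_one_iff_abs_le_one, abs_div, abs_of_pos hX', div_le_one hX']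
      exact_mod_cast hd1
    rw [← mul_assoc, ← ENNReal.ofReal_mul (by positivity), ← Real.exp_add,
      ← ofReal_norm, ← ENNReal.ofReal_pow (norm_nonneg _), ← ENNReal.ofReal_mul (by positivity)]
    refine ENNReal.ofReal_le_ofReal ?_
    have h3 : 1 ≤ Real.exp (Real.pi + -(Real.pi * ((d : ℝ) / (X : ℝ)) ^ 2)) := by
      rw [Real.one_le_exp_iff]
      nlinarith [Real.pi_pos]
    nlinarith [sq_nonneg ‖S d‖]
  calc ∑ d ∈ sqf X, ENNReal.ofReal (‖S d‖ ^ 2) ≤ ∑ d ∈ sqf X, ENNReal.ofReal (Real.exp Real.pi) *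
      (ENNReal.ofReal (Real.exp (-(Real.pi * (d / (X : ℝ)) ^ 2))) * ‖S d‖ₑ ^ 2) :=
        Finset.sum_le_sum h1
    _ = ENNReal.ofReal (Real.exp Real.pi) * ∑ d ∈ sqf X,
      (ENNReal.ofReal (Real.exp (-(Real.pi * (d / (X : ℝ)) ^ 2))) * ‖S d‖ₑ ^ 2) := by
        rw [Finset.mul_sum]
    _ ≤ ENNReal.ofReal (Real.exp Real.pi) * ENNReal.ofReal B := by
        gcongr
        exact (ENNReal.sum_le_tsum _).trans h

/-- T12c1 -/
theorem T12c1_of (h12a : S12a) (Q : ℕ) (lam : ℕ → ℝ) (H : Hecke Q lam)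
    (hl : ∀ n : ℕ, |lam n| ≤ dd n) (hm : ∀ n : ℕ, |muE Q lam n| ≤ dd n) :
    ∃ (C : ℝ) (A : ℕ), 0 < C ∧
    ∀ (X Y : ℕ) (Z δ : ℝ), 3 ≤ X → 1 ≤ Y → (Y : ℝ) ^ 4 ≤ X → 1 ≤ Z → Z ^ 4 ≤ X → 0 < δ → δ ≤ 1 / 4 →
      ∑ d ∈ sqf X, ‖∑' n : ℕ, if Y < n then ((cY Q lam Y n * js d n * (n : ℝ) ^ (-(1 / 2 + δ)) *
          Real.exp (-(n / Z)) : ℝ) : ℂ) else 0‖ ^ 2 ≤
        C * X * (Y : ℝ) ^ (-δ) * (δ⁻¹) ^ A + C := by
  obtain ⟨C, hC, ha⟩ := h12a
  obtain ⟨A, hA⟩ := pairs_sum 3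
  set K : ℝ := (Nat.factorial 25 : ℝ) * ∑' n : ℕ, 1 / (n : ℝ) ^ 2 with hK
  have hS2 : Summable (fun n : ℕ => 1 / (n : ℝ) ^ 2) :=
    Real.summable_one_div_nat_pow.2 (by norm_num)
  have hK0 : 0 ≤ K := mul_nonneg (Nat.cast_nonneg _) (tsum_nonneg fun n => by positivity)
  refine ⟨Real.exp Real.pi * 2 ^ A + Real.exp Real.pi * (C * K ^ 2), A, by positivity,
    fun X Y Z δ hX hY hYX hZ hZX hδ hδ4 => ?_⟩
  have hX3 : (3 : ℝ) ≤ X := by exact_mod_cast hX
  have hY1 : (1 : ℝ) ≤ Y := by exact_mod_cast hY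
  let x : ℕ → ℂ := fun n => if Y < n then ((cY Q lam Y n * (n : ℝ) ^ (-(1 / 2 + δ)) *
          Real.exp (-(n / Z)) : ℝ) : ℂ) else 0
  have hxn : ∀ n : ℕ, ‖x n‖ = if Y < n then |cY Q lam Y n| * (n : ℝ) ^ (-(1 / 2 + δ)) *
      Real.exp (-(n / Z)) else 0 := by
    intro n
    simp only [x]
    split_ifs
    · rw [Complex.norm_real, Real.norm_eq_abs, abs_mul, abs_mul, abs_of_pos (Real.exp_pos _),
        abs_of_nonneg (Real.rpow_nonneg (Nat.cast_nonneg n) _)]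
    · exact norm_zero
  have hodd : ∀ n, x n ≠ 0 → Odd n := by
    intro n hn
    simp only [x] at hn
    split_ifs at hn with h1
    · refine odd_of_cY H (Y := Y) fun h0 => hn ?_
      rw [h0]
      simp
    · exact (hn rfl).elim
  have hsum : ∀ d : ℤ, ∑' n : ℕ, (if Y < n then ((cY Q lam Y n * js d n *
      (n : ℝ) ^ (-(1 / 2 + δ)) * Real.exp (-(n / Z)) : ℝ) : ℂ) else 0) =
      ∑' n : ℕ, x n * js d n := by
    intro d
    refine tsum_congr fun n => ?_
    simp only [x]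
    split_ifs
    · push_cast
      ring
    · rw [zero_mul]
  -- the bound for the second sum
  have hb : ∀ n : ℕ, ‖x n‖ * (n : ℝ) ^ 20 ≤
      (Nat.factorial 25 : ℝ) * Z ^ 25 * (1 / (n : ℝ) ^ 2) := by
    intro n
    rw [hxn]
    split_ifs with h1
    · have hn0 : 0 < n := by omega
      have hn : (1 : ℝ) ≤ n := by exact_mod_cast hn0
      have e1 : |cY Q lam Y n| ≤ (n : ℝ) ^ 3 :=
        (abs_cY_le hl hm Y n).trans (pow_le_pow_left₀ (dd_nonneg _) (dd_le n) 3)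
      have e2 : (n : ℝ) ^ (-(1 / 2 + δ)) ≤ 1 :=
        Real.rpow_le_one_of_one_le_of_nonpos hn (by linarith)
      have e3 : Real.exp (-(n / Z)) ≤ (Nat.factorial 25 : ℝ) * Z ^ 25 / (n : ℝ) ^ 25 := by
        have h2 := Real.pow_div_factorial_le_exp (x := (n : ℝ) / Z) (by positivity) 25
        rw [Real.exp_neg, inv_le_comm₀ (Real.exp_pos _) (by positivity)]
        refine le_trans (le_of_eq ?_) h2
        rw [div_pow]
        field_simp
      calc |cY Q lam Y n| * (n : ℝ) ^ (-(1 / 2 + δ)) * Real.exp (-(n / Z)) * (n : ℝ) ^ 20 ≤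
          (n : ℝ) ^ 3 * 1 * ((Nat.factorial 25 : ℝ) * Z ^ 25 / (n : ℝ) ^ 25) * (n : ℝ) ^ 20 := by
            gcongr
        _ = (Nat.factorial 25 : ℝ) * Z ^ 25 * (1 / (n : ℝ) ^ 2) := by
            field_simp
    · rw [zero_mul]
      positivity
  have hs1 : Summable (fun n : ℕ => ‖x n‖ * (n : ℝ) ^ 20) :=
    Summable.of_nonneg_of_le (fun n => by positivity) hb (hS2.mul_left _)
  have hs2 : ∑' n : ℕ, ‖x n‖ * (n : ℝ) ^ 20 ≤ K * Z ^ 25 := by
    refine (hs1.tsum_le_tsum hb (hS2.mul_left _)).trans (le_of_eq ?_)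
    rw [tsum_mul_left, hK]
    ring
  -- the bound for the first sum
  have hp := hA (1 + δ) ((Y : ℝ) ^ (-δ)) (fun n => ‖x n‖) (by linarith) (by positivity)
    (fun n => norm_nonneg _) (by simp [hxn]) (by
      intro m n hm0 hn0
      simp only [hxn]
      have key : ∀ n : ℕ, Y < n → |cY Q lam Y n| * (n : ℝ) ^ (-(1 / 2 + δ)) *
          Real.exp (-(n / Z)) ≤ (Y : ℝ) ^ (-(δ / 2)) * (dd n ^ 3 * (n : ℝ) ^ (-((1 + δ) / 2))) := by
        intro n hn
        have hn0 : 0 < n := by omega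
        have hn1 : (1 : ℝ) ≤ n := by exact_mod_cast hn0
        have e3 : Real.exp (-(n / Z)) ≤ 1 := by
          rw [Real.exp_le_one_iff]
          have : (0 : ℝ) ≤ n / Z := by positivity
          linarith
        have e4 : (n : ℝ) ^ (-(1 / 2 + δ)) ≤ (Y : ℝ) ^ (-(δ / 2)) * (n : ℝ) ^ (-((1 + δ) / 2)) := by
          have : (n : ℝ) ^ (-(1 / 2 + δ)) = (n : ℝ) ^ (-(δ / 2)) * (n : ℝ) ^ (-((1 + δ) / 2)) := by
            rw [← Real.rpow_add (by linarith)]
            congr 1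
            ring
          rw [this]
          refine mul_le_mul_of_nonneg_right ?_ (by positivity)
          refine Real.rpow_le_rpow_of_nonpos (by linarith) ?_ (by linarith)
          exact_mod_cast hn.le
        have e5 := abs_cY_le hl hm Y n
        have e6 := dd_nonneg n
        calc |cY Q lam Y n| * (n : ℝ) ^ (-(1 / 2 + δ)) * Real.exp (-(n / Z)) ≤
            dd n ^ 3 * ((Y : ℝ) ^ (-(δ / 2)) * (n : ℝ) ^ (-((1 + δ) / 2))) * 1 := by gcongr
          _ = _ := by ring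
      have hd1 := dd_nonneg m
      have hd2 := dd_nonneg n
      by_cases h1 : Y < m
      · by_cases h2 : Y < n
        · rw [if_pos h1, if_pos h2]
          refine (mul_le_mul (key m h1) (key n h2) (by positivity) (by positivity)).trans
            (le_of_eq ?_)
          rw [Real.mul_rpow (Nat.cast_nonneg _) (Nat.cast_nonneg _)]
          have : (Y : ℝ) ^ (-δ) = (Y : ℝ) ^ (-(δ / 2)) * (Y : ℝ) ^ (-(δ / 2)) := by
            rw [← Real.rpow_add (by linarith)]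
            congr 1
            ring
          rw [this]
          ring
        · rw [if_neg h2, mul_zero]
          positivity
      · rw [if_neg h1, zero_mul]
        positivity)
  have hmain := ha X x (by linarith) hodd hs1
  set P := ∑' m : ℕ × ℕ, (if IsSquare (m.1 * m.2) then ‖x m.1‖ * ‖x m.2‖ else 0) with hP
  set R := ∑' n : ℕ, ‖x n‖ * (n : ℝ) ^ 20 with hR
  have hP0 : 0 ≤ P := tsum_nonneg fun m => by
    split_ifs
    · positivity
    · exact le_rfl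
  have hR0 : 0 ≤ R := tsum_nonneg fun n => by positivity
  have h5 := sum_sqf (fun d => ∑' n : ℕ, x n * js d n) (X * P + C / X ^ 19 * R ^ 2) X
    (by omega) (by positivity) hmain
  simp only [hsum]
  refine h5.trans ?_
  have h6 : C / (X : ℝ) ^ 19 * R ^ 2 ≤ C * K ^ 2 := by
    have h7 : R ^ 2 ≤ K ^ 2 * (X : ℝ) ^ 19 := by
      calc R ^ 2 ≤ (K * Z ^ 25) ^ 2 := pow_le_pow_left₀ hR0 hs2 2
        _ = K ^ 2 * Z ^ 50 := by ring
        _ ≤ K ^ 2 * (Z ^ 4) ^ 19 := by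
          rw [← pow_mul]
          exact mul_le_mul_of_nonneg_left (pow_le_pow_right₀ hZ (by norm_num)) (by positivity)
        _ ≤ K ^ 2 * (X : ℝ) ^ 19 := by gcongr
    calc C / (X : ℝ) ^ 19 * R ^ 2 ≤ C / (X : ℝ) ^ 19 * (K ^ 2 * (X : ℝ) ^ 19) := by gcongr
      _ = C * K ^ 2 := by field_simp
  have h8 : P ≤ (Y : ℝ) ^ (-δ) * (2 ^ A * (δ⁻¹) ^ A) := by
    refine hp.trans ?_
    rw [← mul_pow, add_sub_cancel_left, one_div]
    have : 1 ≤ δ⁻¹ := by
      rw [one_le_inv₀ hδ]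
      linarith
    exact mul_le_mul_of_nonneg_left (pow_le_pow_left₀ (by linarith) (by linarith) A)
      (by positivity)
  have hW : 0 ≤ (X : ℝ) * (Y : ℝ) ^ (-δ) * (δ⁻¹) ^ A := by positivity
  calc Real.exp Real.pi * (X * P + C / X ^ 19 * R ^ 2) ≤
      Real.exp Real.pi * (X * ((Y : ℝ) ^ (-δ) * (2 ^ A * (δ⁻¹) ^ A)) + C * K ^ 2) := by gcongr
    _ = Real.exp Real.pi * 2 ^ A * (X * (Y : ℝ) ^ (-δ) * (δ⁻¹) ^ A) +
      Real.exp Real.pi * (C * K ^ 2) := by ring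
    _ ≤ (Real.exp Real.pi * 2 ^ A + Real.exp Real.pi * (C * K ^ 2)) *
      (X * (Y : ℝ) ^ (-δ) * (δ⁻¹) ^ A) +
      (Real.exp Real.pi * 2 ^ A + Real.exp Real.pi * (C * K ^ 2)) := by
        have i1 : 0 ≤ Real.exp Real.pi * 2 ^ A := by positivity
        have i2 : 0 ≤ Real.exp Real.pi * (C * K ^ 2) := by positivity
        nlinarith [mul_nonneg i2 hW]
    _ = _ := by ring

/-- T12c2 -/
theorem T12c2_of (h12a : S12a) (Q : ℕ) (lam : ℕ → ℝ) (H : Hecke Q lam)
    (hm : ∀ n : ℕ, |muE Q lam n| ≤ dd n) : ∃ (C : ℝ) (A : ℕ), 0 < C ∧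
    ∀ (X Y : ℕ) (s : ℂ), 3 ≤ X → 1 ≤ Y → (Y : ℝ) ^ 4 ≤ X → 1 / 4 ≤ s.re →
      ∑ d ∈ sqf X, ‖Mol Q lam Y d s‖ ^ 2 ≤
        C * X * Real.log X ^ A * (Y : ℝ) ^ (2 * max 0 (1 / 2 - s.re)) := by
  obtain ⟨C, hC, ha⟩ := h12a
  obtain ⟨A, hA⟩ := pairs_sum 1
  refine ⟨Real.exp Real.pi * (Real.exp 1 * 2 ^ A + C), A, by positivity,
    fun X Y s hX hY hYX hs => ?_⟩
  have hX3 : (3 : ℝ) ≤ X := by exact_mod_cast hX
  have hX0 : (0 : ℝ) < X := by linarith
  have hY1 : (1 : ℝ) ≤ Y := by exact_mod_cast hY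
  have hlog : 1 ≤ Real.log X := by
    rw [Real.le_log_iff_exp_le hX0]
    exact (Real.exp_one_lt_three.le).trans hX3
  have hlogY : 4 * Real.log Y ≤ Real.log X := by
    have := Real.log_le_log (by positivity) hYX
    rwa [Real.log_pow] at this
  set u : ℝ := max 0 (1 / 2 - s.re) with hu
  have hu0 : 0 ≤ u := le_max_left _ _
  have hu1 : 1 / 2 - s.re ≤ u := le_max_right _ _
  let x : ℕ → ℂ := fun n => if n ∈ Finset.Icc 1 Y then (muE Q lam n : ℂ) * (n : ℂ) ^ (-s) else 0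
  have hxn : ∀ n : ℕ, ‖x n‖ = if n ∈ Finset.Icc 1 Y then |muE Q lam n| * (n : ℝ) ^ (-s.re)
      else 0 := by
    intro n
    simp only [x]
    split_ifs with h
    · rw [norm_mul, Complex.norm_real, Real.norm_eq_abs,
        Complex.norm_natCast_cpow_of_pos (Finset.mem_Icc.1 h).1, Complex.neg_re]
    · exact norm_zero
  have hodd : ∀ n, x n ≠ 0 → Odd n := by
    intro n hn
    simp only [x] at hn
    split_ifs at hn with h1
    · refine odd_of_muE H fun h0 => hn ?_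
      rw [h0]
      simp
    · exact (hn rfl).elim
  have hsum : ∀ d : ℤ, Mol Q lam Y d s = ∑' n : ℕ, x n * js d n := by
    intro d
    unfold Mol
    rw [tsum_eq_sum (s := Finset.Icc 1 Y)]
    · refine Finset.sum_congr rfl fun n hn => ?_
      simp only [x, if_pos hn]
      push_cast
      ring
    · intro n hn
      simp only [x, if_neg hn, zero_mul]
  have hs1 : Summable (fun n : ℕ => ‖x n‖ * (n : ℝ) ^ 20) := by
    refine summable_of_ne_finset_zero (s := Finset.Icc 1 Y) fun n hn => ?_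
    rw [hxn, if_neg hn, zero_mul]
  have hs2 : ∑' n : ℕ, ‖x n‖ * (n : ℝ) ^ 20 ≤ (Y : ℝ) ^ 22 := by
    rw [tsum_eq_sum (s := Finset.Icc 1 Y) fun n hn => by rw [hxn, if_neg hn, zero_mul]]
    have h1 : ∀ n ∈ Finset.Icc 1 Y, ‖x n‖ * (n : ℝ) ^ 20 ≤ (Y : ℝ) ^ 21 := by
      intro n hn
      obtain ⟨hn1, hn2⟩ := Finset.mem_Icc.1 hn
      have e0 : (1 : ℝ) ≤ n := by exact_mod_cast hn1
      have e1 : (n : ℝ) ≤ Y := by exact_mod_cast hn2
      rw [hxn, if_pos hn]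
      have e2 : |muE Q lam n| ≤ Y := (hm n).trans ((dd_le n).trans e1)
      have e3 : (n : ℝ) ^ (-s.re) ≤ 1 :=
        Real.rpow_le_one_of_one_le_of_nonpos e0 (by linarith)
      calc |muE Q lam n| * (n : ℝ) ^ (-s.re) * (n : ℝ) ^ 20 ≤ Y * 1 * (Y : ℝ) ^ 20 := by gcongr
        _ = (Y : ℝ) ^ 21 := by ring
    refine (Finset.sum_le_card_nsmul _ _ _ h1).trans ?_
    rw [nsmul_eq_mul, Nat.card_Icc, Nat.add_sub_cancel]
    exact le_of_eq (by ring)
  have hp := hA (1 + 2 * (Real.log X)⁻¹) (Real.exp 1 * (Y : ℝ) ^ (2 * u)) (fun n => ‖x n‖)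
    (by
      have : 0 < (Real.log X)⁻¹ := by positivity
      linarith) (by positivity)
    (fun n => norm_nonneg _) (by simp [hxn]) (by
      intro m n hm0 hn0
      simp only [hxn]
      have hd1 := dd_nonneg m
      have hd2 := dd_nonneg n
      have m1 : (1 : ℝ) ≤ m := by exact_mod_cast hm0
      have n1 : (1 : ℝ) ≤ n := by exact_mod_cast hn0
      by_cases h1 : m ∈ Finset.Icc 1 Y
      · by_cases h2 : n ∈ Finset.Icc 1 Y
        · rw [if_pos h1, if_pos h2]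
          have i1 : (m : ℝ) ≤ Y := by exact_mod_cast (Finset.mem_Icc.1 h1).2
          have i2 : (n : ℝ) ≤ Y := by exact_mod_cast (Finset.mem_Icc.1 h2).2
          have hmn : (1 : ℝ) ≤ (m : ℝ) * n := by nlinarith
          have hmn2 : (m : ℝ) * n ≤ (Y : ℝ) ^ (2 : ℝ) := by
            rw [show (Y : ℝ) ^ (2 : ℝ) = (Y : ℝ) * Y by
              rw [show (2 : ℝ) = ((2 : ℕ) : ℝ) by norm_num, Real.rpow_natCast, pow_two]]
            exact mul_le_mul i1 i2 (by positivity) (by positivity)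
          have key : ((m : ℝ) * n) ^ (-s.re) ≤ Real.exp 1 * (Y : ℝ) ^ (2 * u) *
              ((m : ℝ) * n) ^ (-((1 + 2 * (Real.log X)⁻¹) / 2)) := by
            have e1 : ((m : ℝ) * n) ^ (-s.re) =
                ((m : ℝ) * n) ^ (1 / 2 - s.re + (Real.log X)⁻¹) *
                  ((m : ℝ) * n) ^ (-((1 + 2 * (Real.log X)⁻¹) / 2)) := by
              rw [← Real.rpow_add (by linarith)]
              congr 1
              ring
            rw [e1]
            refine mul_le_mul_of_nonneg_right ?_ (by positivity)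
            have hL : 0 < (Real.log X)⁻¹ := by positivity
            calc ((m : ℝ) * n) ^ (1 / 2 - s.re + (Real.log X)⁻¹) ≤
                ((m : ℝ) * n) ^ (u + (Real.log X)⁻¹) :=
                  Real.rpow_le_rpow_of_exponent_le hmn (by linarith)
              _ ≤ ((Y : ℝ) ^ (2 : ℝ)) ^ (u + (Real.log X)⁻¹) :=
                  Real.rpow_le_rpow (by linarith) hmn2 (by linarith)
              _ = (Y : ℝ) ^ (2 * (Real.log X)⁻¹) * (Y : ℝ) ^ (2 * u) := by
                  rw [← Real.rpow_mul (by linarith), ← Real.rpow_add (by linarith)]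
                  congr 1
                  ring
              _ ≤ Real.exp 1 * (Y : ℝ) ^ (2 * u) := by
                  refine mul_le_mul_of_nonneg_right ?_ (by positivity)
                  rw [Real.rpow_def_of_pos (by linarith)]
                  refine Real.exp_le_exp.2 ?_
                  have : Real.log Y * (2 * (Real.log X)⁻¹) =
                      (4 * Real.log Y) / Real.log X / 2 := by
                    field_simp
                    ring
                  rw [this]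
                  have h9 : (4 * Real.log Y) / Real.log X ≤ 1 := by
                    rw [div_le_one (by linarith)]
                    exact hlogY
                  linarith
          calc |muE Q lam m| * (m : ℝ) ^ (-s.re) * (|muE Q lam n| * (n : ℝ) ^ (-s.re)) =
              (|muE Q lam m| * |muE Q lam n|) * ((m : ℝ) * n) ^ (-s.re) := by
                rw [Real.mul_rpow (Nat.cast_nonneg _) (Nat.cast_nonneg _)]
                ring
            _ ≤ (dd m * dd n) * (Real.exp 1 * (Y : ℝ) ^ (2 * u) *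
              ((m : ℝ) * n) ^ (-((1 + 2 * (Real.log X)⁻¹) / 2))) := by
                have := hm m
                have := hm n
                gcongr
            _ = _ := by ring
        · rw [if_neg h2, mul_zero]
          positivity
      · rw [if_neg h1, zero_mul]
        positivity)
  have hmain := ha X x (by linarith) hodd hs1
  set P := ∑' m : ℕ × ℕ, (if IsSquare (m.1 * m.2) then ‖x m.1‖ * ‖x m.2‖ else 0) with hP
  set R := ∑' n : ℕ, ‖x n‖ * (n : ℝ) ^ 20 with hR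
  have hP0 : 0 ≤ P := tsum_nonneg fun m => by
    split_ifs
    · positivity
    · exact le_rfl
  have hR0 : 0 ≤ R := tsum_nonneg fun n => by positivity
  have h5 := sum_sqf (fun d => ∑' n : ℕ, x n * js d n) (X * P + C / X ^ 19 * R ^ 2) X
    (by omega) (by positivity) hmain
  simp only [hsum]
  refine h5.trans ?_
  have h6 : C / (X : ℝ) ^ 19 * R ^ 2 ≤ C := by
    have h7 : R ^ 2 ≤ (X : ℝ) ^ 19 := by
      calc R ^ 2 ≤ ((Y : ℝ) ^ 22) ^ 2 := pow_le_pow_left₀ hR0 hs2 2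
        _ = (Y : ℝ) ^ 44 := by ring
        _ ≤ ((Y : ℝ) ^ 4) ^ 19 := by
          rw [← pow_mul]
          exact pow_le_pow_right₀ hY1 (by norm_num)
        _ ≤ (X : ℝ) ^ 19 := by gcongr
    calc C / (X : ℝ) ^ 19 * R ^ 2 ≤ C / (X : ℝ) ^ 19 * (X : ℝ) ^ 19 := by gcongr
      _ = C := by field_simp
  have h8 : P ≤ Real.exp 1 * (Y : ℝ) ^ (2 * u) * (2 ^ A * Real.log X ^ A) := by
    refine hp.trans ?_
    rw [← mul_pow, add_sub_cancel_left]
    have : 1 / (2 * (Real.log X)⁻¹) = Real.log X / 2 := by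
      field_simp
    rw [this]
    exact mul_le_mul_of_nonneg_left (pow_le_pow_left₀ (by linarith) (by linarith) A)
      (by positivity)
  have hYu : 1 ≤ (Y : ℝ) ^ (2 * u) := Real.one_le_rpow hY1 (by linarith)
  have hlA : 1 ≤ Real.log X ^ A := one_le_pow₀ hlog
  have hW : 1 ≤ (X : ℝ) * Real.log X ^ A * (Y : ℝ) ^ (2 * u) := by
    calc (1 : ℝ) = 1 * 1 * 1 := by ring
      _ ≤ (X : ℝ) * Real.log X ^ A * (Y : ℝ) ^ (2 * u) := by
        gcongr
        linarith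
  calc Real.exp Real.pi * (X * P + C / X ^ 19 * R ^ 2) ≤
      Real.exp Real.pi * (X * (Real.exp 1 * (Y : ℝ) ^ (2 * u) * (2 ^ A * Real.log X ^ A)) +
        C * 1) := by
        rw [mul_one]
        gcongr
    _ ≤ Real.exp Real.pi * (X * (Real.exp 1 * (Y : ℝ) ^ (2 * u) * (2 ^ A * Real.log X ^ A)) +
        C * ((X : ℝ) * Real.log X ^ A * (Y : ℝ) ^ (2 * u))) := by gcongr
    _ = _ := by ring

end

end Pool.Agent.Y141.QT12c
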