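import Pool.Agent.Y141.QT12c
import Pool.Agent.Y496.QT3f
import Pool.Agent.Y180.QT12b1

set_option autoImplicit false

/-! Project QT, task T12c1. -/

namespace Pool.Agent.Y141.QT12c1

open Complex MeasureTheory Filter Topology
open Pool.Agent.H306R2.RZ (js Gk)
open Pool.Agent.Y19.QT
open scoped ENNReal ComplexConjugate

noncomputable section

/-- T12c1 -/
theorem T12c1 (Q : ℕ) (lam : ℕ → ℝ) (H : Hecke Q lam) : ∃ (C : ℝ) (A : ℕ), 0 < C ∧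
    ∀ (X Y : ℕ) (Z δ : ℝ), 3 ≤ X → 1 ≤ Y → (Y : ℝ) ^ 4 ≤ X → 1 ≤ Z → Z ^ 4 ≤ X → 0 < δ → δ ≤ 1 / 4 →
      ∑ d ∈ sqf X, ‖∑' n : ℕ, if Y < n then ((cY Q lam Y n * js d n * (n : ℝ) ^ (-(1 / 2 + δ)) *
          Real.exp (-(n / Z)) : ℝ) : ℂ) else 0‖ ^ 2 ≤
        C * X * (Y : ℝ) ^ (-δ) * (δ⁻¹) ^ A + C :=
  Pool.Agent.Y141.QT12c.T12c1_of Pool.Agent.Y496.QT.T12a Q lam H
    (Pool.Agent.Y180.QT12b1.T12b1 Q lam H).2.1 (Pool.Agent.Y180.QT12b1.T12b1 Q lam H).2.2.1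

end

end Pool.Agent.Y141.QT12c1
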