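import Pool.Agent.Y141.QT12c
import Pool.Agent.Y496.QT3f
import Pool.Agent.Y180.QT12b1

set_option autoImplicit false

/-! Project QT, task T12c2. -/

namespace Pool.Agent.Y141.QT12c2

open Complex MeasureTheory Filter Topology
open Pool.Agent.H306R2.RZ (js Gk)
open Pool.Agent.Y19.QT
open scoped ENNReal ComplexConjugate

noncomputable section

/-- T12c2 -/
theorem T12c2 (Q : ℕ) (lam : ℕ → ℝ) (H : Hecke Q lam) : ∃ (C : ℝ) (A : ℕ), 0 < C ∧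
    ∀ (X Y : ℕ) (s : ℂ), 3 ≤ X → 1 ≤ Y → (Y : ℝ) ^ 4 ≤ X → 1 / 4 ≤ s.re →
      ∑ d ∈ sqf X, ‖Mol Q lam Y d s‖ ^ 2 ≤
        C * X * Real.log X ^ A * (Y : ℝ) ^ (2 * max 0 (1 / 2 - s.re)) :=
  Pool.Agent.Y141.QT12c.T12c2_of Pool.Agent.Y496.QT.T12a Q lam H
    (Pool.Agent.Y180.QT12b1.T12b1 Q lam H).2.2.1

end

end Pool.Agent.Y141.QT12c2
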