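import Pool.Agent.Y19.QT.Defs

set_option autoImplicit false

/-!
Project QT, task T7: the embedding `(d, p) ↦ d p²`.
-/

namespace Pool.Agent.Y141.QT7

open Complex MeasureTheory Filter Topology
open Pool.Agent.H306R2.RZ (js Gk)
open Pool.Agent.Y19.QT
open scoped ENNReal ComplexConjugate

noncomputable section

variable {Q : ℕ} {lam : ℕ → ℝ}

lemma two_le_of_not_dvd (H : Hecke Q lam) {p : ℕ} (hp : p.Prime) (hQ : ¬ p ∣ Q) : 16 < p := by
  by_contra h
  exact hQ (H.small p hp (not_lt.1 h))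

/-- a trivial bound for squarefree `n` -/
lemma abs_lam_le (H : Hecke Q lam) : ∀ n : ℕ, Squarefree n → |lam n| ≤ n := by
  intro n
  induction n using Nat.strong_induction_on with
  | _ n ih =>
    intro hn
    by_cases h1 : n = 1
    · subst h1
      rw [H.one]
      simp
    have h0 : n ≠ 0 := hn.ne_zero
    have hp : n.minFac.Prime := Nat.minFac_prime h1
    obtain ⟨m, hm⟩ := n.minFac_dvd
    set p := n.minFac with hpdef
    have hcop : p.Coprime m := by
      rw [Nat.Prime.coprime_iff_not_dvd hp]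
      intro hd
      obtain ⟨m', hm'⟩ := hd
      have : p * p ∣ n := ⟨m', by rw [hm, hm', mul_assoc]⟩
      have h2 := hn p this
      rw [Nat.isUnit_iff] at h2
      exact hp.one_lt.ne' h2
    have hm0 : m ≠ 0 := by
      rintro rfl
      exact h0 (by rw [hm, mul_zero])
    have hmlt : m < n := by
      rw [hm]
      exact lt_mul_of_one_lt_left (Nat.pos_of_ne_zero hm0) hp.one_lt
    have hms : Squarefree m := hn.squarefree_of_dvd ⟨p, by rw [mul_comm]; exact hm⟩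
    have h3 := ih m hmlt hms
    rw [hm, H.mul p m hcop, abs_mul, Nat.cast_mul]
    refine mul_le_mul ?_ h3 (abs_nonneg _) (Nat.cast_nonneg _)
    refine (H.bound p hp).trans ?_
    exact_mod_cast hp.two_le

lemma abs_flat_le (H : Hecke Q lam) (n : ℕ) : |flat lam n| ≤ n := by
  unfold flat
  split_ifs with h
  · exact abs_lam_le H n h
  · simp

lemma abs_js_le (k : ℤ) (n : ℕ) : |js k n| ≤ 1 := by
  unfold js
  rcases jacobiSym.trichotomy k n with h | h | h <;> rw [h] <;> simp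

/-- the terms of `G` -/
def tm (lam : ℕ → ℝ) (k : ℤ) (w : ℂ) (n : ℕ) : ℂ :=
  ((flat lam n * Real.sqrt n * js k n : ℝ) : ℂ) * cexp (-(2 * Real.pi * n * w))

lemma norm_tm_le (H : Hecke Q lam) (k : ℤ) (w : ℂ) (c : ℝ) (hc : c ≤ w.re) (n : ℕ) :
    ‖tm lam k w n‖ ≤ (n : ℝ) ^ 2 * Real.exp (-(2 * Real.pi * c * n)) := by
  unfold tm
  rw [norm_mul, Complex.norm_real, Complex.norm_exp, Real.norm_eq_abs]
  refine mul_le_mul ?_ ?_ (Real.exp_pos _).le (by positivity)
  · rw [abs_mul, abs_mul, pow_two]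
    have h1 := abs_flat_le H n
    have h2 := abs_js_le k n
    have h3 : |Real.sqrt n| ≤ n := by
      rw [abs_of_nonneg (Real.sqrt_nonneg _)]
      rcases Nat.eq_zero_or_pos n with rfl | hn
      · simp
      · have h4 : (1 : ℝ) ≤ n := by exact_mod_cast hn
        rw [Real.sqrt_le_left (by positivity)]
        nlinarith
    calc |flat lam n| * |Real.sqrt n| * |js k n| ≤ n * n * 1 := by gcongr
      _ = n * n := mul_one _
  · refine Real.exp_le_exp.2 ?_
    have h1 : (-(2 * (Real.pi : ℂ) * n * w)).re = -(2 * Real.pi * n * w.re) := by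
      rw [Complex.neg_re]
      have : (2 * (Real.pi : ℂ) * n * w) = ((2 * Real.pi * n : ℝ) : ℂ) * w := by push_cast; ring
      rw [this, Complex.re_ofReal_mul]
    rw [h1]
    have h2 : 0 ≤ 2 * Real.pi * (n : ℝ) := by positivity
    nlinarith [mul_le_mul_of_nonneg_left hc h2]

lemma summable_bd (c : ℝ) (hc : 0 < c) :
    Summable (fun n : ℕ => (n : ℝ) ^ 2 * Real.exp (-(2 * Real.pi * c * n))) := by
  have h := Real.summable_pow_mul_exp_neg_nat_mul 2 (r := 2 * Real.pi * c) (by positivity)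
  refine h.congr fun n => ?_
  congr 2
  ring

lemma summable_tm (H : Hecke Q lam) (k : ℤ) (w : ℂ) (hw : 0 < w.re) :
    Summable (tm lam k w) :=
  Summable.of_norm_bounded (summable_bd w.re hw) fun n => norm_tm_le H k w _ le_rfl n

lemma G_eq (k : ℤ) (w : ℂ) : G lam k w = ∑' n, tm lam k w n := rfl

lemma continuousOn_G (H : Hecke Q lam) (k : ℤ) (c : ℝ) (hc : 0 < c) :
    ContinuousOn (G lam k) {w : ℂ | c ≤ w.re} := by
  have : G lam k = fun w => ∑' n, tm lam k w n := rfl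
  rw [this]
  refine continuousOn_tsum (u := fun n : ℕ => (n : ℝ) ^ 2 * Real.exp (-(2 * Real.pi * c * n)))
    (fun n => ?_) (summable_bd c hc) fun n w hw => norm_tm_le H k w c hw n
  unfold tm
  fun_prop

/-- splitting off a prime -/
lemma G_split (H : Hecke Q lam) (k : ℤ) (p : ℕ) (hp : p.Prime) (w : ℂ)
    (hw : 0 < w.re) :
    G lam k w = G lam (k * (p : ℤ) ^ 2) w +
      ((lam p * Real.sqrt p * js k p : ℝ) : ℂ) * G lam (k * (p : ℤ) ^ 2) ((p : ℂ) * w) := by
  have hp0 : p ≠ 0 := hp.ne_zero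
  have hpw : 0 < ((p : ℂ) * w).re := by
    have : ((p : ℂ) * w).re = (p : ℝ) * w.re := by
      rw [show (p : ℂ) = ((p : ℝ) : ℂ) by simp, Complex.re_ofReal_mul]
    rw [this]
    have : (0 : ℝ) < p := by exact_mod_cast hp.pos
    positivity
  -- the value of the symbol
  have hj : ∀ n : ℕ, n ≠ 0 → js (k * (p : ℤ) ^ 2) n = if p ∣ n then 0 else js k n := by
    intro n hn
    unfold js
    rw [jacobiSym.mul_left]
    have : NeZero n := ⟨hn⟩
    split_ifs with h
    · have h1 : jacobiSym ((p : ℤ) ^ 2) n = 0 := by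
        rw [jacobiSym.pow_left]
        have : jacobiSym (p : ℤ) n = 0 := by
          rw [jacobiSym.eq_zero_iff_not_coprime]
          rw [Int.gcd_natCast_natCast]
          intro h2
          have h3 : p ∣ Nat.gcd p n := Nat.dvd_gcd dvd_rfl h
          rw [h2] at h3
          exact hp.one_lt.ne' (Nat.dvd_one.1 h3)
        rw [this]
        norm_num
      rw [h1]
      simp
    · have h1 : jacobiSym ((p : ℤ) ^ 2) n = 1 := by
        apply jacobiSym.sq_one'
        rw [Int.gcd_natCast_natCast]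
        exact (Nat.Prime.coprime_iff_not_dvd hp).2 h
      rw [h1, mul_one]
  -- the two series
  have hs1 : Summable (tm lam (k * (p : ℤ) ^ 2) w) := summable_tm H _ w hw
  have hs2 : Summable (fun m => ((lam p * Real.sqrt p * js k p : ℝ) : ℂ) *
      tm lam (k * (p : ℤ) ^ 2) ((p : ℂ) * w) m) := (summable_tm H _ _ hpw).mul_left _
  let g : ℕ → ℂ := fun n => if p ∣ n then tm lam k w n else 0
  have hinj : Function.Injective (fun m : ℕ => p * m) := fun a b h =>
    Nat.eq_of_mul_eq_mul_left hp.pos h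
  have hg : ∀ n ∉ Set.range (fun m : ℕ => p * m), g n = 0 := by
    intro n hn
    have : ¬ p ∣ n := fun ⟨m, hm⟩ => hn ⟨m, hm.symm⟩
    simp only [g, if_neg this]
  have hgm : ∀ m : ℕ, g (p * m) = ((lam p * Real.sqrt p * js k p : ℝ) : ℂ) *
      tm lam (k * (p : ℤ) ^ 2) ((p : ℂ) * w) m := by
    intro m
    simp only [g, if_pos (Dvd.intro m rfl), tm]
    have he : cexp (-(2 * (Real.pi : ℂ) * ((p * m : ℕ) : ℂ) * w)) =
        cexp (-(2 * (Real.pi : ℂ) * (m : ℂ) * ((p : ℂ) * w))) := by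
      congr 1
      push_cast
      ring
    suffices hh : flat lam (p * m) * Real.sqrt ((p * m : ℕ) : ℝ) * js k (p * m) =
        lam p * Real.sqrt p * js k p *
          (flat lam m * Real.sqrt m * js (k * (p : ℤ) ^ 2) m) by
      rw [he, hh]
      push_cast
      ring
    rcases Nat.eq_zero_or_pos m with rfl | hm
    · simp [flat]
    rw [hj m hm.ne']
    by_cases hpm : p ∣ m
    · rw [if_pos hpm]
      have hns : ¬ Squarefree (p * m) := by
        intro hs
        obtain ⟨m', rfl⟩ := hpm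
        have := hs p ⟨m', by ring⟩
        rw [Nat.isUnit_iff] at this
        exact hp.one_lt.ne' this
      simp only [flat, if_neg hns]
      ring
    · rw [if_neg hpm]
      have hcop : p.Coprime m := (Nat.Prime.coprime_iff_not_dvd hp).2 hpm
      have hsq : Squarefree (p * m) ↔ Squarefree m := by
        rw [Nat.squarefree_mul_iff]
        exact ⟨fun h => h.2.2, fun h => ⟨hcop, hp.squarefree, h⟩⟩
      have : NeZero p := ⟨hp0⟩
      have : NeZero m := ⟨hm.ne'⟩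
      have hjj : js k (p * m) = js k p * js k m := by
        unfold js
        rw [jacobiSym.mul_right]
        push_cast
        ring
      have hsqrt : Real.sqrt ((p * m : ℕ) : ℝ) = Real.sqrt p * Real.sqrt m := by
        rw [Nat.cast_mul, Real.sqrt_mul (Nat.cast_nonneg _)]
      rw [hjj, hsqrt]
      simp only [flat]
      by_cases hs : Squarefree m
      · rw [if_pos (hsq.2 hs), if_pos hs, H.mul p m hcop]
        ring
      · rw [if_neg (fun h => hs (hsq.1 h)), if_neg hs]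
        ring
  have htm : ∀ n, tm lam k w n = tm lam (k * (p : ℤ) ^ 2) w n + g n := by
    intro n
    rcases Nat.eq_zero_or_pos n with rfl | hn
    · simp [tm, flat, g]
    by_cases h : p ∣ n
    · have : tm lam (k * (p : ℤ) ^ 2) w n = 0 := by
        simp [tm, hj n hn.ne', h]
      rw [this, zero_add]
      simp only [g, if_pos h]
    · have : tm lam (k * (p : ℤ) ^ 2) w n = tm lam k w n := by
        simp [tm, hj n hn.ne', h]
      rw [this]
      simp only [g, if_neg h, add_zero]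
  have hsg : Summable g := by
    have h1 : Summable (g ∘ fun m : ℕ => p * m) := by
      refine hs2.congr fun m => ?_
      exact (hgm m).symm
    exact (hinj.summable_iff hg).1 h1
  rw [G_eq, G_eq, G_eq, tsum_congr htm, hs1.tsum_add hsg, ← tsum_mul_left]
  congr 1
  have h2 : ∑' m, g (p * m) = ∑' n, g n := hinj.tsum_eq (f := g) (fun n hn => by
    by_contra h
    exact hn (hg n h))
  rw [← h2]
  exact tsum_congr hgm

lemma re_ray (θ u : ℝ) : (ray θ u).re = u * Real.cos θ := by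
  unfold ray
  rw [Complex.re_ofReal_mul, Complex.exp_ofReal_mul_I_re]

lemma cos_pos' {θ : ℝ} (h3 : |θ| < Real.pi / 2) : 0 < Real.cos θ :=
  Real.cos_pos_of_mem_Ioo ⟨by linarith [neg_abs_le θ], by linarith [le_abs_self θ]⟩

lemma continuous_ray (θ : ℝ) : Continuous (ray θ) := by
  unfold ray
  fun_prop

/-- change of variables -/
lemma lint_mul (F : ℝ → ℝ≥0∞) (p u0 : ℝ) (hp : 0 < p) :
    ∫⁻ u in Set.Ioi u0, F (p * u) = ENNReal.ofReal p⁻¹ * ∫⁻ v in Set.Ioi (p * u0), F v := by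
  have h1 : (fun u : ℝ => p * u) '' Set.Ioi u0 = Set.Ioi (p * u0) := by
    ext v
    constructor
    · rintro ⟨u, hu, rfl⟩
      exact mul_lt_mul_of_pos_left hu hp
    · intro hv
      refine ⟨p⁻¹ * v, ?_, ?_⟩
      · have h2 : p * u0 < v := hv
        change u0 < p⁻¹ * v
        rw [lt_inv_mul_iff₀ hp]
        exact h2
      · change p * (p⁻¹ * v) = v
        field_simp
  have h2 := lintegral_image_eq_lintegral_abs_deriv_mul (s := Set.Ioi u0)
    (f := fun u : ℝ => p * u) (f' := fun _ => p) measurableSet_Ioi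
    (fun u _ => by simpa using ((hasDerivAt_id u).const_mul p).hasDerivWithinAt)
    (fun a _ b _ h => mul_left_cancel₀ hp.ne' h) F
  rw [h1] at h2
  rw [h2, abs_of_pos hp, lintegral_const_mul' _ _ ENNReal.ofReal_ne_top, ← mul_assoc,
    ← ENNReal.ofReal_mul (by positivity), inv_mul_cancel₀ hp.ne', ENNReal.ofReal_one, one_mul]

/-- the norm of `G` and of `G ∘ (p ·)` -/
lemma NN_le (H : Hecke Q lam) (k : ℤ) (p : ℕ) (hp : p.Prime) (hQ : ¬ p ∣ Q) (σ θ u0 : ℝ)
    (h1 : 1 / 2 < σ) (h3 : |θ| < Real.pi / 2) (h4 : 0 < u0) :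
    NN σ θ u0 (G lam k) ≤ 4 * NN σ θ u0 (G lam (k * (p : ℤ) ^ 2)) := by
  have hp16 : (16 : ℝ) < p := by exact_mod_cast two_le_of_not_dvd H hp hQ
  have hp0 : (0 : ℝ) < p := by linarith
  set k' := k * (p : ℤ) ^ 2 with hk'
  set c : ℂ := ((lam p * Real.sqrt p * js k p : ℝ) : ℂ) with hc
  have hcn : ‖c‖ₑ ^ 2 ≤ ENNReal.ofReal (4 * p) := by
    have h5 : ‖c‖ ^ 2 ≤ 4 * p := by
      rw [hc, Complex.norm_real, Real.norm_eq_abs, sq_abs, mul_pow, mul_pow,
        Real.sq_sqrt hp0.le]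
      have h6 : lam p ^ 2 ≤ 4 := by
        have := H.bound p hp
        rw [← sq_abs]
        nlinarith [abs_nonneg (lam p)]
      have h7 : js k p ^ 2 ≤ 1 := by
        have := abs_js_le k p
        rw [← sq_abs]
        nlinarith [abs_nonneg (js k p)]
      calc lam p ^ 2 * p * js k p ^ 2 ≤ 4 * p * 1 := by gcongr
        _ = 4 * p := mul_one _
    rw [← ofReal_norm, ← ENNReal.ofReal_pow (norm_nonneg _)]
    exact ENNReal.ofReal_le_ofReal h5
  have hcos := cos_pos' h3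
  -- pointwise
  have hpt : ∀ u ∈ Set.Ioi u0, ‖G lam k (ray θ u)‖ₑ ^ 2 * ENNReal.ofReal (u ^ (2 * σ)) ≤
      2 * (‖G lam k' (ray θ u)‖ₑ ^ 2 * ENNReal.ofReal (u ^ (2 * σ))) +
      2 * (‖c‖ₑ ^ 2 * (‖G lam k' (ray θ (p * u))‖ₑ ^ 2 * ENNReal.ofReal (u ^ (2 * σ)))) := by
    intro u hu
    have hu0 : 0 < u := h4.trans hu
    have hre : 0 < (ray θ u).re := by
      rw [re_ray]
      positivity
    have hsp := G_split H k p hp (ray θ u) hre
    have hray : (p : ℂ) * ray θ u = ray θ (p * u) := by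
      unfold ray
      push_cast
      ring
    rw [hray] at hsp
    rw [hsp]
    have h5 : ‖G lam k' (ray θ u) + c * G lam k' (ray θ (p * u))‖ₑ ^ 2 ≤
        2 * ‖G lam k' (ray θ u)‖ₑ ^ 2 + 2 * (‖c‖ₑ ^ 2 * ‖G lam k' (ray θ (p * u))‖ₑ ^ 2) := by
      have h6 : ‖G lam k' (ray θ u) + c * G lam k' (ray θ (p * u))‖ ^ 2 ≤
          2 * ‖G lam k' (ray θ u)‖ ^ 2 + 2 * (‖c‖ ^ 2 * ‖G lam k' (ray θ (p * u))‖ ^ 2) := by
        have h7 := norm_add_le (G lam k' (ray θ u)) (c * G lam k' (ray θ (p * u)))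
        rw [norm_mul] at h7
        have h8 : 0 ≤ ‖G lam k' (ray θ u) + c * G lam k' (ray θ (p * u))‖ := norm_nonneg _
        nlinarith [sq_nonneg (‖G lam k' (ray θ u)‖ - ‖c‖ * ‖G lam k' (ray θ (p * u))‖),
          pow_le_pow_left₀ h8 h7 2]
      rw [← ofReal_norm, ← ofReal_norm, ← ofReal_norm,
        ← ofReal_norm, ← ENNReal.ofReal_pow (norm_nonneg _),
        ← ENNReal.ofReal_pow (norm_nonneg _), ← ENNReal.ofReal_pow (norm_nonneg _),
        ← ENNReal.ofReal_pow (norm_nonneg _), ← ENNReal.ofReal_mul (by positivity),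
        show (2 : ℝ≥0∞) = ENNReal.ofReal 2 by simp, ← ENNReal.ofReal_mul (by norm_num),
        ← ENNReal.ofReal_mul (by norm_num), ← ENNReal.ofReal_add (by positivity) (by positivity)]
      exact ENNReal.ofReal_le_ofReal h6
    calc _ ≤ (2 * ‖G lam k' (ray θ u)‖ₑ ^ 2 +
          2 * (‖c‖ₑ ^ 2 * ‖G lam k' (ray θ (p * u))‖ₑ ^ 2)) * ENNReal.ofReal (u ^ (2 * σ)) := by
          gcongr
      _ = _ := by ring
  have hm1 : AEMeasurable (fun u : ℝ => 2 * (‖G lam k' (ray θ u)‖ₑ ^ 2 *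
      ENNReal.ofReal (u ^ (2 * σ)))) (volume.restrict (Set.Ioi u0)) := by
    have hco : ContinuousOn (fun u : ℝ => G lam k' (ray θ u)) (Set.Ioi u0) := by
      refine (continuousOn_G H k' (u0 * Real.cos θ) (by positivity)).comp
        (continuous_ray θ).continuousOn fun u hu => ?_
      change u0 * Real.cos θ ≤ (ray θ u).re
      rw [re_ray]
      exact mul_le_mul_of_nonneg_right (le_of_lt hu) hcos.le
    have h5 : AEMeasurable (fun u : ℝ => G lam k' (ray θ u)) (volume.restrict (Set.Ioi u0)) :=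
      hco.aemeasurable measurableSet_Ioi
    refine AEMeasurable.const_mul (AEMeasurable.mul (h5.enorm.pow_const 2) ?_) 2
    exact (by fun_prop : Measurable fun u : ℝ => ENNReal.ofReal (u ^ (2 * σ))).aemeasurable
  have hI2 : ∫⁻ u in Set.Ioi u0, ‖G lam k' (ray θ (p * u))‖ₑ ^ 2 * ENNReal.ofReal (u ^ (2 * σ)) ≤
      ENNReal.ofReal ((p : ℝ)⁻¹ * (p : ℝ) ^ (-(2 * σ))) * NN σ θ u0 (G lam k') := by
    have h5 : ∀ u ∈ Set.Ioi u0, ‖G lam k' (ray θ (p * u))‖ₑ ^ 2 * ENNReal.ofReal (u ^ (2 * σ)) =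
        ENNReal.ofReal ((p : ℝ) ^ (-(2 * σ))) * (fun v : ℝ => ‖G lam k' (ray θ v)‖ₑ ^ 2 *
          ENNReal.ofReal (v ^ (2 * σ))) (p * u) := by
      intro u hu
      have hu0 : 0 < u := h4.trans hu
      have h6 : u ^ (2 * σ) = (p : ℝ) ^ (-(2 * σ)) * (p * u) ^ (2 * σ) := by
        rw [Real.mul_rpow hp0.le hu0.le, ← mul_assoc, ← Real.rpow_add hp0]
        simp
      conv_lhs => rw [h6]
      rw [ENNReal.ofReal_mul (by positivity)]
      ring
    rw [setLIntegral_congr_fun measurableSet_Ioi h5,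
      lintegral_const_mul' _ _ ENNReal.ofReal_ne_top,
      lint_mul (fun v : ℝ => ‖G lam k' (ray θ v)‖ₑ ^ 2 * ENNReal.ofReal (v ^ (2 * σ))) p u0 hp0,
      ← mul_assoc, ← ENNReal.ofReal_mul (by positivity), mul_comm ((p : ℝ) ^ (-(2 * σ)))]
    gcongr
    refine lintegral_mono_set fun v hv => ?_
    have h7 : (p : ℝ) * u0 < v := hv
    change u0 < v
    nlinarith
  have hfin : (2 : ℝ≥0∞) + 2 * (ENNReal.ofReal (4 * p) *
      ENNReal.ofReal ((p : ℝ)⁻¹ * (p : ℝ) ^ (-(2 * σ)))) ≤ 4 := by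
    rw [← ENNReal.ofReal_mul (by positivity), show (2 : ℝ≥0∞) = ENNReal.ofReal 2 by simp,
      ← ENNReal.ofReal_mul (by norm_num), ← ENNReal.ofReal_add (by norm_num) (by positivity),
      show (4 : ℝ≥0∞) = ENNReal.ofReal 4 by simp]
    refine ENNReal.ofReal_le_ofReal ?_
    have h5 : (p : ℝ) ^ (-(2 * σ)) ≤ (p : ℝ)⁻¹ := by
      rw [← Real.rpow_neg_one]
      exact Real.rpow_le_rpow_of_exponent_le (by linarith) (by linarith)
    have h6 : (p : ℝ)⁻¹ ≤ 1 / 16 := by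
      rw [one_div]
      exact inv_anti₀ (by norm_num) hp16.le
    have h7 : 4 * (p : ℝ) * ((p : ℝ)⁻¹ * (p : ℝ) ^ (-(2 * σ))) = 4 * (p : ℝ) ^ (-(2 * σ)) := by
      field_simp
    rw [h7]
    linarith
  calc NN σ θ u0 (G lam k) ≤ ∫⁻ u in Set.Ioi u0,
        (2 * (‖G lam k' (ray θ u)‖ₑ ^ 2 * ENNReal.ofReal (u ^ (2 * σ))) +
        2 * (‖c‖ₑ ^ 2 * (‖G lam k' (ray θ (p * u))‖ₑ ^ 2 * ENNReal.ofReal (u ^ (2 * σ))))) :=
        setLIntegral_mono' measurableSet_Ioi hpt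
    _ = 2 * NN σ θ u0 (G lam k') + 2 * (‖c‖ₑ ^ 2 * ∫⁻ u in Set.Ioi u0,
        ‖G lam k' (ray θ (p * u))‖ₑ ^ 2 * ENNReal.ofReal (u ^ (2 * σ))) := by
        rw [lintegral_add_left' hm1, lintegral_const_mul' _ _ (by simp),
          lintegral_const_mul' _ _ (by simp), lintegral_const_mul' _ _ (by simp)]
        rfl
    _ ≤ 2 * NN σ θ u0 (G lam k') + 2 * (ENNReal.ofReal (4 * p) *
        (ENNReal.ofReal ((p : ℝ)⁻¹ * (p : ℝ) ^ (-(2 * σ))) * NN σ θ u0 (G lam k'))) := by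
        gcongr
    _ = (2 + 2 * (ENNReal.ofReal (4 * p) *
        ENNReal.ofReal ((p : ℝ)⁻¹ * (p : ℝ) ^ (-(2 * σ))))) * NN σ θ u0 (G lam k') := by ring
    _ ≤ 4 * NN σ θ u0 (G lam k') := by gcongr

lemma inj_aux {d d' : ℤ} {p p' : ℕ} (hd' : Squarefree d') (hp : p.Prime)
    (hp' : p'.Prime) (h : d * (p : ℤ) ^ 2 = d' * (p' : ℤ) ^ 2) : p = p' ∧ d = d' := by
  have key : ∀ {d d' : ℤ} {p p' : ℕ}, Squarefree d' → p.Prime → p'.Prime →
      d * (p : ℤ) ^ 2 = d' * (p' : ℤ) ^ 2 → p = p' := by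
    intro d d' p p' hd' hp hp' h
    by_contra hne
    have hcop : IsCoprime ((p : ℤ) ^ 2) ((p' : ℤ) ^ 2) := by
      refine IsCoprime.pow ?_
      rw [Nat.isCoprime_iff_coprime]
      exact (Nat.coprime_primes hp hp').2 hne
    have h1 : (p : ℤ) ^ 2 ∣ d' * (p' : ℤ) ^ 2 := ⟨d, by rw [← h]; ring⟩
    have h2 : (p : ℤ) ^ 2 ∣ d' := hcop.dvd_of_dvd_mul_right h1
    have h3 := hd' (p : ℤ) (by rw [← pow_two]; exact h2)
    rw [Int.isUnit_iff_natAbs_eq, Int.natAbs_natCast] at h3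
    exact hp.one_lt.ne' h3
  have h1 := key hd' hp hp' h
  subst h1
  refine ⟨rfl, ?_⟩
  have h2 : ((p : ℤ) ^ 2) ≠ 0 := pow_ne_zero _ (by exact_mod_cast hp.ne_zero)
  exact mul_right_cancel₀ h2 h

/-- T7: embedding -/
theorem T7 (Q : ℕ) (lam : ℕ → ℝ) (H : Hecke Q lam) (M P : ℕ) (hM : 0 < M) (hP : 0 < P)
    (σ θ u0 : ℝ) (h1 : 1 / 2 < σ) (h2 : σ ≤ 1) (h3 : |θ| < Real.pi / 2) (h4 : 0 < u0) :
    (((Finset.range (P + 1)).filter (fun p => p.Prime ∧ ¬ p ∣ Q)).card : ℝ≥0∞) *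
        ∑ d ∈ sqf M, NN σ θ u0 (G lam d) ≤
      ENNReal.ofReal (4 * Real.exp Real.pi) *
        ∑' k : ℤ, ENNReal.ofReal (Real.exp (-(Real.pi * (k / ((M : ℝ) * P ^ 2)) ^ 2))) *
          NN σ θ u0 (G lam k) := by
  set S := (Finset.range (P + 1)).filter (fun p => p.Prime ∧ ¬ p ∣ Q) with hS
  have hmem : ∀ p ∈ S, p ≤ P ∧ p.Prime ∧ ¬ p ∣ Q := by
    intro p hp
    rw [hS, Finset.mem_filter, Finset.mem_range] at hp
    exact ⟨Nat.lt_succ_iff.1 hp.1, hp.2⟩
  set f : ℤ → ℝ≥0∞ := fun k => ENNReal.ofReal (Real.exp (-(Real.pi *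
    (k / ((M : ℝ) * P ^ 2)) ^ 2))) * NN σ θ u0 (G lam k) with hf
  set e : ℕ × ℤ → ℤ := fun x => x.2 * (x.1 : ℤ) ^ 2 with he
  have hinj : Set.InjOn e (S ×ˢ sqf M : Finset (ℕ × ℤ)) := by
    rintro ⟨p, d⟩ hx ⟨p', d'⟩ hy h
    rw [Finset.mem_coe, Finset.mem_product] at hx hy
    obtain ⟨a, b⟩ := inj_aux (mem_sqf.1 hy.2).2 (hmem p hx.1).2.1
      (hmem p' hy.1).2.1 h
    exact Prod.ext a b
  have hle : ∀ x ∈ (S ×ˢ sqf M : Finset (ℕ × ℤ)), NN σ θ u0 (G lam x.2) ≤
      ENNReal.ofReal (4 * Real.exp Real.pi) * f (e x) := by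
    rintro ⟨p, d⟩ hx
    rw [Finset.mem_product] at hx
    obtain ⟨hpP, hp, hQ⟩ := hmem p hx.1
    have hd := (mem_sqf.1 hx.2).1
    have h5 := NN_le H d p hp hQ σ θ u0 h1 h3 h4
    refine h5.trans ?_
    simp only [hf, he]
    rw [← mul_assoc, ← ENNReal.ofReal_mul (by positivity)]
    gcongr
    rw [show (4 : ℝ≥0∞) = ENNReal.ofReal 4 by simp]
    refine ENNReal.ofReal_le_ofReal ?_
    have hM' : (0 : ℝ) < M := by exact_mod_cast hM
    have hP' : (0 : ℝ) < P := by exact_mod_cast hP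
    have h6 : (((d * (p : ℤ) ^ 2 : ℤ) : ℝ) / ((M : ℝ) * P ^ 2)) ^ 2 ≤ 1 := by
      rw [sq_le_one_iff_abs_le_one, abs_div, abs_of_pos (show 0 < (M : ℝ) * P ^ 2 by positivity),
        div_le_one (by positivity)]
      push_cast
      rw [abs_mul, abs_of_nonneg (show (0 : ℝ) ≤ (p : ℝ) ^ 2 by positivity)]
      have h7 : |(d : ℝ)| ≤ M := by exact_mod_cast hd
      have h8 : (p : ℝ) ≤ P := by exact_mod_cast hpP
      gcongr
    rw [mul_assoc, ← Real.exp_add]
    have h9 : 1 ≤ Real.exp (Real.pi + -(Real.pi *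
        (((d * (p : ℤ) ^ 2 : ℤ) : ℝ) / ((M : ℝ) * P ^ 2)) ^ 2)) := by
      rw [Real.one_le_exp_iff]
      nlinarith [Real.pi_pos]
    linarith
  calc (S.card : ℝ≥0∞) * ∑ d ∈ sqf M, NN σ θ u0 (G lam d)
      = ∑ x ∈ S ×ˢ sqf M, NN σ θ u0 (G lam x.2) := by
        rw [Finset.sum_product]
        simp only [Finset.sum_const, nsmul_eq_mul]
    _ ≤ ∑ x ∈ S ×ˢ sqf M, ENNReal.ofReal (4 * Real.exp Real.pi) * f (e x) :=
        Finset.sum_le_sum hle
    _ = ENNReal.ofReal (4 * Real.exp Real.pi) * ∑ y ∈ (S ×ˢ sqf M).image e, f y := by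
        rw [Finset.sum_image hinj, Finset.mul_sum]
    _ ≤ ENNReal.ofReal (4 * Real.exp Real.pi) * ∑' k : ℤ, f k := by
        gcongr
        exact ENNReal.sum_le_tsum _

end

end Pool.Agent.Y141.QT7
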